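import Pool.Agent.helper35.DR.SpecA

set_option autoImplicit false

namespace Pool.Agent.DR

open Pool.Agent.helper58.DC Pool.Agent.DI

variable {A : Type} [Group A]

theorem GCN_map (N : Subgroup A) (hN : N.Normal) (x : A) :
    N.map (MulAut.conj x).toMonoidHom = N := by
  ext y
  constructor
  · rintro ⟨z, hz, rfl⟩
    exact hN.conj_mem z hz x
  · intro hy
    refine ⟨x⁻¹ * y * x, ?_, ?_⟩
    · have := hN.conj_mem y hy x⁻¹
      rwa [inv_inv] at this
    · simp [MulAut.conj_apply, mul_assoc]

theorem GCN_cpl (N : Subgroup A) (hN : N.Normal) (x : A) (V : Subgroup A) (hV : IsCpl N V) :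
    IsCpl N (V.map (MulAut.conj x).toMonoidHom) := by
  obtain ⟨h1, h2⟩ := hV
  have hinj : Function.Injective (MulAut.conj x).toMonoidHom := (MulAut.conj x).injective
  constructor
  · have h := congrArg (fun K : Subgroup A => K.map (MulAut.conj x).toMonoidHom) h1
    simp only [Subgroup.map_bot] at h
    rw [Subgroup.map_inf _ _ _ hinj, GCN_map N hN x] at h
    exact h
  · have h := congrArg (fun K : Subgroup A => K.map (MulAut.conj x).toMonoidHom) h2
    rw [Subgroup.map_sup, GCN_map N hN x] at h
    rw [h]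
    exact Subgroup.map_top_of_surjective _ (MulAut.conj x).surjective

/-- conjugation action of `N` on the complements -/
@[instance_reducible]
def GCN_act (N : Subgroup A) (hN : N.Normal) : MulAction N {V : Subgroup A // IsCpl N V} where
  smul x V := ⟨V.1.map (MulAut.conj (x : A)).toMonoidHom, GCN_cpl N hN x V.1 V.2⟩
  one_smul V := by
    apply Subtype.ext
    change V.1.map (MulAut.conj ((1 : N) : A)).toMonoidHom = V.1
    ext y
    simp [Subgroup.mem_map]
  mul_smul x y V := by
    apply Subtype.ext
    change V.1.map (MulAut.conj ((x * y : N) : A)).toMonoidHom =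
      (V.1.map (MulAut.conj (y : A)).toMonoidHom).map (MulAut.conj (x : A)).toMonoidHom
    rw [Subgroup.map_map]
    congr 1
    ext z
    simp [MulAut.conj_apply, mul_assoc]

theorem GCN_free (N : Subgroup A) (hM : MinAb N) (hc : ∃ a : A, ∃ x ∈ N, a * x ≠ x * a)
    (x : A) (hx : x ∈ N) (V : Subgroup A) (hV : IsCpl N V)
    (h : V.map (MulAut.conj x).toMonoidHom = V) : x = 1 := by
  obtain ⟨h1, h2⟩ := hV
  have hN := hM.nor
  have hcV : ∀ v ∈ V, x * v = v * x := by
    intro v hv
    have m1 : x * v * x⁻¹ ∈ V := by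
      have : (MulAut.conj x).toMonoidHom v ∈ V.map (MulAut.conj x).toMonoidHom := ⟨v, hv, rfl⟩
      rw [h] at this
      simpa [MulAut.conj_apply] using this
    have m2 : x * v * x⁻¹ * v⁻¹ ∈ V := V.mul_mem m1 (V.inv_mem hv)
    have m3 : x * v * x⁻¹ * v⁻¹ ∈ N := by
      have e : x * v * x⁻¹ * v⁻¹ = x * (v * x⁻¹ * v⁻¹) := by group
      rw [e]
      exact N.mul_mem hx (hN.conj_mem _ (N.inv_mem hx) v)
    have m4 : x * v * x⁻¹ * v⁻¹ ∈ V ⊓ N := ⟨m2, m3⟩
    rw [h1, Subgroup.mem_bot] at m4
    have e : x * v = (x * v * x⁻¹ * v⁻¹) * (v * x) := by group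
    rw [e, m4, one_mul]
  have hcent : x ∈ Subgroup.center A := by
    have hle : V ⊔ N ≤ Subgroup.centralizer {x} := by
      apply sup_le
      · intro v hv
        rw [Subgroup.mem_centralizer_iff]
        intro y hy
        rw [Set.mem_singleton_iff] at hy
        subst hy
        exact hcV v hv
      · intro v hv
        rw [Subgroup.mem_centralizer_iff]
        intro y hy
        rw [Set.mem_singleton_iff] at hy
        subst hy
        exact hM.comm _ hx _ hv
    rw [h2] at hle
    rw [Subgroup.mem_center_iff]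
    intro g
    have := hle (Subgroup.mem_top g)
    rw [Subgroup.mem_centralizer_iff] at this
    exact (this x rfl).symm
  have hZ := hM.min (N ⊓ Subgroup.center A) inferInstance inf_le_left
  rcases hZ with hZ | hZ
  · have : x ∈ N ⊓ Subgroup.center A := ⟨hx, hcent⟩
    rw [hZ, Subgroup.mem_bot] at this
    exact this
  · exfalso
    obtain ⟨a, y, hy, hne⟩ := hc
    rw [← hZ] at hy
    exact hne (Subgroup.mem_center_iff.mp hy.2 a)

theorem GCN : GCN_stmt := by
  classical
  intro A _ _ N hM hc
  unfold ncpl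
  let _ := GCN_act N hM.nor
  have : Finite {V : Subgroup A // IsCpl N V} := inferInstance
  rw [Nat.card_congr (MulAction.selfEquivSigmaOrbitsQuotientStabilizer N {V : Subgroup A // IsCpl N V})]
  let _ : Fintype (Quotient (MulAction.orbitRel N {V : Subgroup A // IsCpl N V})) :=
    Fintype.ofFinite _
  rw [Nat.card_sigma]
  apply Finset.dvd_sum
  intro ω _
  have hs : MulAction.stabilizer N ω.out = ⊥ := by
    rw [eq_bot_iff]
    intro x hx
    rw [MulAction.mem_stabilizer_iff] at hx
    have h1 := congrArg Subtype.val hx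
    have h2 := GCN_free N hM hc x x.2 ω.out.1 ω.out.2 h1
    rw [Subgroup.mem_bot]
    exact Subtype.ext h2
  rw [hs]
  have e : Nat.card (N ⧸ (⊥ : Subgroup N)) = Nat.card N :=
    Nat.card_congr (QuotientGroup.quotientBot (G := N)).toEquiv
  rw [e]

end Pool.Agent.DR
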