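import Pool.Agent.helper35.DR.SpecK

set_option autoImplicit false

namespace Pool.Agent.DR

open Pool.Agent.helper58.DC Pool.Agent.DI

theorem KTW_alg (A B C D E F H K L g : ℂˣ) (h1 : A * K = E * g) (h2 : B * K = L * C)
    (h3 : H * F = L * D) : g = A * B⁻¹ * (C * D⁻¹) * (E * F⁻¹)⁻¹ * H := by
  have e1 := congrArg Units.val h1
  have e2 := congrArg Units.val h2
  have e3 := congrArg Units.val h3
  simp only [Units.val_mul] at e1 e2 e3
  apply Units.ext
  simp only [Units.val_mul, mul_inv, inv_inv, Units.val_inv_eq_inv_val]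
  have hB : (B : ℂ) ≠ 0 := B.ne_zero
  have hD : (D : ℂ) ≠ 0 := D.ne_zero
  have hE : (E : ℂ) ≠ 0 := E.ne_zero
  field_simp
  linear_combination -((B : ℂ) * D) * e1 + (A : ℂ) * D * e2 - (A : ℂ) * C * e3

theorem KTW : KTW_stmt := by
  intro Q _ α hα q n x
  obtain ⟨hc, -, -⟩ := hα
  have h1 := hc q n x
  have h2 := hc (q * n * q⁻¹) q x
  have h3 := hc (q * n * q⁻¹) (q * x * q⁻¹) q
  have e1 : q * n * q⁻¹ * q = q * n := by group
  have e2 : q * x * q⁻¹ * q = q * x := by group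
  have e3 : q * n * q⁻¹ * (q * x * q⁻¹) = q * (n * x) * q⁻¹ := by group
  rw [e1] at h2
  rw [e2, e3] at h3
  simp only [tw]
  exact KTW_alg _ _ _ _ _ _ _ _ _ _ h1 h2 h3

end Pool.Agent.DR
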