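import Pool.Agent.helper35.DR.SpecR

set_option autoImplicit false

namespace Pool.Agent.DR

open Pool.Agent.helper58.DC Pool.Agent.DI

theorem RCT_map_top {Γ : Type} [Group Γ] (G₂ : Subgroup Γ) [G₂.Normal] (S : Subgroup Γ) :
    S.map (QuotientGroup.mk' G₂) = ⊤ ↔ S ⊔ G₂ = ⊤ := by
  constructor
  · intro h
    have h1 := congrArg (Subgroup.comap (QuotientGroup.mk' G₂)) h
    rwa [Subgroup.comap_map_eq, QuotientGroup.ker_mk', Subgroup.comap_top] at h1
  · intro h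
    have h1 := congrArg (Subgroup.map (QuotientGroup.mk' G₂)) h
    rw [Subgroup.map_sup, Subgroup.map_top_of_surjective _ (QuotientGroup.mk'_surjective G₂)] at h1
    have h2 : G₂.map (QuotientGroup.mk' G₂) = ⊥ := by
      rw [Subgroup.map_eq_bot_iff, QuotientGroup.ker_mk']
    rwa [h2, sup_bot_eq] at h1

theorem RCT_key {Γ : Type} [Group Γ] (G₂ N K S : Subgroup Γ) [G₂.Normal] (F : Γ → ℂ)
    (hS : stF N F = S) (hK : S ⊓ G₂ = K) (hN : N ⊓ G₂ = K) :
    S.map (QuotientGroup.mk' G₂) = ⊤ ↔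
      (N ⊔ G₂ = ⊤ ∧ ∀ n ∈ N, funMap (MulAut.conj n) F = F) := by
  rw [RCT_map_top]
  have hle : S ≤ N := by
    rw [← hS]
    intro x hx
    exact hx.1
  constructor
  · intro h
    refine ⟨?_, ?_⟩
    · rw [eq_top_iff, ← h]
      exact sup_le_sup_right hle G₂
    · intro n hn
      have h1 : n ∈ S ⊔ G₂ := by rw [h]; exact Subgroup.mem_top n
      rw [← SetLike.mem_coe, Subgroup.mul_normal] at h1
      obtain ⟨s, hs, g, hg, rfl⟩ := h1
      have hs' : s ∈ S := hs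
      have hgN : g ∈ N := by
        have h2 := N.mul_mem (N.inv_mem (hle hs')) hn
        simpa using h2
      have hgK : g ∈ S ⊓ G₂ := by
        rw [hK, ← hN]
        exact ⟨hgN, hg⟩
      have h3 : s * g ∈ S := S.mul_mem hs' hgK.1
      rw [← hS] at h3
      exact h3.2
  · rintro ⟨h1, h2⟩
    have h3 : N ≤ S := by
      intro n hn
      rw [← hS]
      exact ⟨hn, h2 n hn⟩
    rw [eq_top_iff, ← h1]
    exact sup_le_sup_right h3 G₂

theorem RCT (hRST : RST_stmt) (hB13 : B13_stmt) : RCT_stmt := by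
  classical
  intro Γ _ _ p _ M G₁ G₂ _ τ D C hC hne
  obtain ⟨hker, hmap, hst⟩ := hRST G₂ Γ (Γ ⧸ G₂) (XQ G₂) C hC hne
  have hinc : (XQ G₂).inc = G₂.subtype := rfl
  have hproj : (XQ G₂).proj = QuotientGroup.mk' G₂ := rfl
  rw [hinc] at hker hmap
  rw [hproj] at hker
  simp only [hinc, hproj] at hst
  rw [hker, Subgroup.range_subtype] at hst
  rw [Subgroup.range_subtype] at hmap
  obtain ⟨h13a, h13b, h13c, h13d, h13e, -⟩ :=
    hB13 G₂ Γ p G₂.subtype G₂.subtype_injective (nrm C)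
  have hcard : Nat.card (nrm (cmap G₂.subtype C) ⊓ G₂ : Subgroup Γ) = Nat.card (nrm C) := by
    rw [hmap]
    exact (Nat.card_congr
      ((nrm C).equivMapOfInjective G₂.subtype G₂.subtype_injective).toEquiv).symm
  have key : ∀ θ ∈ IrrOn (nrm C), ((XQ G₂).stab C θ).map (XQ G₂).proj = ⊤ ↔
      (nrm (cmap G₂.subtype C) ⊔ G₂ = ⊤ ∧ ∀ n ∈ nrm (cmap G₂.subtype C),
        funMap (MulAut.conj n) (ext0 G₂.subtype θ) = ext0 G₂.subtype θ) := by
    intro θ hθ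
    obtain ⟨h1, h2, -⟩ := hst θ hθ
    rw [hproj]
    exact RCT_key G₂ _ _ _ _ h1 h2 hmap
  unfold hf
  split_ifs with h
  · rw [hcard]
    congr 2
    symm
    refine Nat.card_congr (Equiv.ofBijective
      (fun θ => ⟨ext0 G₂.subtype θ.1, ?_, ?_, ?_, θ.2.2.2.1⟩) ⟨?_, ?_⟩)
    · rw [hmap]
      exact (h13b θ.1).1 θ.2.1
    · exact ((key θ.1 θ.2.1).1 θ.2.2.2.2).2
    · rw [hmap]
      exact (h13e θ.1 D).1 θ.2.2.1
    · intro θ θ' hθ
      apply Subtype.ext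
      exact h13d _ _ (congrArg Subtype.val hθ)
    · rintro ⟨φ, hφ1, hφ2, hφ3, hφ4⟩
      have hφ1' := hφ1
      rw [hmap] at hφ1'
      obtain ⟨θ, rfl⟩ := h13c φ hφ1'
      have hθ : θ ∈ IrrOn (nrm C) := (h13b θ).2 hφ1'
      refine ⟨⟨θ, hθ, ?_, hφ4, ?_⟩, rfl⟩
      · rw [hmap] at hφ3
        exact (h13e θ D).2 hφ3
      · exact (key θ hθ).2 ⟨h, hφ2⟩
  · symm
    apply mul_eq_zero_of_right
    rw [Nat.cast_eq_zero]
    have : IsEmpty {θ : G₂ → ℂ // θ ∈ IrrOn (nrm C) ∧ Defect p (nrm C) θ D ∧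
        Cov M G₁ τ (ext0 G₂.subtype θ) ∧ ((XQ G₂).stab C θ).map (XQ G₂).proj = ⊤} := by
      refine ⟨?_⟩
      rintro ⟨θ, h1, -, -, h4⟩
      exact h ((key θ h1).1 h4).1
    exact Nat.card_of_isEmpty

end Pool.Agent.DR
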